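import Pool.Agent.Helper71.BM.Basic

set_option autoImplicit false

/-! # (WEBX) many columns crossing almost all minimal rows give a web -/

namespace Pool.Agent.Helper71.BM

open Finset ErdPos

/-- enumerating a finite set by increasing values of an injective function -/
lemma webx_order {α : Type} [DecidableEq α] (s : Finset α) (f : α → ℕ)
    (hf : Set.InjOn f s) (N : ℕ) (hN : N ≤ s.card) (hne : s.Nonempty) :
    ∃ col : ℕ → α, (∀ j < N, col j ∈ s) ∧ ∀ i j, i < j → j < N → f (col i) < f (col j) := by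
  classical
  obtain ⟨a0, ha0⟩ := hne
  have hcard : (s.image f).card = s.card := card_image_of_injOn hf
  let e := (s.image f).orderEmbOfFin hcard
  have h1 : ∀ j : Fin s.card, ∃ a ∈ s, f a = e j := by
    intro j
    have h2 : e j ∈ s.image f := Finset.orderEmbOfFin_mem _ _ j
    obtain ⟨a, ha, h3⟩ := mem_image.1 h2
    exact ⟨a, ha, h3⟩
  choose g hg1 hg2 using h1
  refine ⟨fun j => if h : j < s.card then g ⟨j, h⟩ else a0, ?_, ?_⟩
  · intro j hj
    have h2 : j < s.card := by omega
    simp only [h2, dif_pos]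
    exact hg1 _
  · intro i j hij hj
    have h2 : j < s.card := by omega
    have h3 : i < s.card := by omega
    simp only [h2, h3, dif_pos]
    rw [hg2, hg2]
    exact e.strictMono (by simpa using hij)

/-- enumerating part of a finite set -/
lemma webx_enum {α : Type} (s : Finset α) (h : ℕ) (hh : h ≤ s.card) (a0 : α) :
    ∃ f : ℕ → α, (∀ a < h, f a ∈ s) ∧ ∀ a < h, ∀ b < h, f a = f b → a = b := by
  classical
  let e := s.equivFin
  refine ⟨fun j => if h : j < s.card then (e.symm ⟨j, h⟩ : α) else a0, ?_, ?_⟩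
  · intro a ha
    have h2 : a < s.card := by omega
    simp only [h2, dif_pos]
    exact (e.symm ⟨a, h2⟩).2
  · intro a ha b hb hab
    have h2 : a < s.card := by omega
    have h3 : b < s.card := by omega
    simp only [h2, h3, dif_pos] at hab
    have h4 := e.symm.injective (Subtype.ext hab)
    simpa using h4

/-- slices of a list -/
lemma webx_flat {V : Type} (l : List V) (p : ℕ → ℕ) (h0 : p 0 = 0) : ∀ d : ℕ,
    (∀ i < d, p i ≤ p (i + 1)) →
    ((List.range d).map (fun i => (l.drop (p i)).take (p (i + 1) - p i))).flatten = l.take (p d) := by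
  intro d
  induction d with
  | zero => intro _; simp [h0]
  | succ d ih =>
    intro h
    rw [List.range_succ, List.map_append, List.flatten_append, ih (fun i hi => h i (by omega))]
    simp only [List.map_cons, List.map_nil, List.flatten_cons, List.flatten_nil, List.append_nil]
    have h1 := h d (by omega)
    have h2 : p (d + 1) = p d + (p (d + 1) - p d) := by omega
    conv_rhs => rw [h2]
    rw [List.take_add]

/-- a vertex of a slice -/
lemma webx_mem {V : Type} {l : List V} {m a b : ℕ} {y : V} (h : l[m]? = some y) (ha : a ≤ m)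
    (hb : m < b) : y ∈ (l.drop a).take (b - a) := by
  refine List.mem_of_getElem? (i := m - a) ?_
  rw [List.getElem?_take_of_lt (by omega), List.getElem?_drop, show a + (m - a) = m by omega]
  exact h

/-- the index of a vertex of a slice -/
lemma webx_idx {V : Type} {l : List V} {a b : ℕ} {y : V} (h : y ∈ (l.drop a).take (b - a)) :
    ∃ m, l[m]? = some y ∧ a ≤ m ∧ m < b := by
  obtain ⟨k, hk⟩ := List.getElem?_of_mem h
  have hk1 : k < ((l.drop a).take (b - a)).length := by
    by_contra hc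
    rw [List.getElem?_eq_none (by omega)] at hk
    exact absurd hk (by simp)
  rw [List.length_take, List.length_drop] at hk1
  rw [List.getElem?_take_of_lt (by omega), List.getElem?_drop] at hk
  exact ⟨a + k, hk, by omega, by omega⟩

/-- pairwise disjoint lists meeting a set `S` are at most `S.card` in number -/
lemma webx_few {V : Type} [DecidableEq V] (col : ℕ → List V) (J : Finset ℕ) (S : Finset V)
    (hdj : ∀ i ∈ J, ∀ j ∈ J, ∀ v, v ∈ col i → v ∈ col j → i = j)
    (hm : ∀ j ∈ J, ∃ v ∈ col j, v ∈ S) : J.card ≤ S.card := by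
  classical
  rcases J.eq_empty_or_nonempty with hJ | ⟨j0, hj0⟩
  · simp [hJ]
  have : Nonempty V := ⟨(hm j0 hj0).choose⟩
  choose! f hf using hm
  refine Finset.card_le_card_of_injOn f (fun j hj => (hf j hj).2) ?_
  intro i hi j hj hij
  exact hdj i hi j hj (f i) (hf i hi).1 (by rw [hij]; exact (hf j hj).1)

/-- the cut in front of the first vertex of a column, in terms of indices -/
lemma webx_cut (h1 : ST_CUT) {V : Type} [Fintype V] [DecidableEq V] {G : SimpleGraph V}
    {K A B : Finset V} {Q P : List (List V)} (hM : MinR G K A B Q P) (hQ : Cols G K Q)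
    {l c : List V} (hl : l ∈ P) (hc : c ∈ Q) {m : ℕ} {v : V} (hm : l[m]? = some v) (hv : v ∈ c)
    (hlt : ∀ j < m, ∀ y, l[j]? = some y → y ∉ c) (hm1 : 1 ≤ m) :
    ∃ S L : Finset V, S.card + 1 = P.length ∧ Disjoint S L ∧ (∀ x ∈ l, x ∉ S) ∧
      (∀ j y, l[j]? = some y → (j < m → y ∈ L) ∧ (m ≤ j → y ∉ L)) ∧
      (∀ l' ∈ P, l' ≠ l → ∃ q, q < l'.length ∧ ∀ j y, l'[j]? = some y →
        (j < q → y ∈ L) ∧ (j = q → y ∈ S) ∧ (q < j → y ∉ L ∧ y ∉ S)) ∧
      ∀ c ∈ Q, (∀ x ∈ c, x ∉ S) → (∀ x ∈ c, x ∈ L) ∨ ∀ x ∈ c, x ∉ L := by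
  have hml : m < l.length := by
    by_contra hh
    rw [List.getElem?_eq_none (by omega)] at hm
    exact absurd hm (by simp)
  have hv' : l[m] = v := by
    rw [List.getElem?_eq_getElem hml] at hm
    exact Option.some.inj hm
  have hml1 : m - 1 < l.length := by omega
  set u := l[m - 1] with hu
  have hdec : l = l.take (m - 1) ++ u :: v :: l.drop (m + 1) := by
    have e1 : l = l.take (m - 1) ++ l.drop (m - 1) := (List.take_append_drop _ _).symm
    have e2 : l.drop (m - 1) = u :: l.drop (m - 1 + 1) := by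
      rw [hu]; exact List.drop_eq_getElem_cons hml1
    have e3 : l.drop (m - 1 + 1) = v :: l.drop (m + 1) := by
      rw [show m - 1 + 1 = m by omega, ← hv']
      exact List.drop_eq_getElem_cons hml
    rw [e2, e3] at e1
    exact e1
  have huc : u ∉ c := hlt (m - 1) (by omega) u (List.getElem?_eq_getElem hml1)
  have hE : ¬ EdgeIn Q u v := by
    rintro ⟨l0, hl0, a1, a2, h2⟩
    have hvl : v ∈ l0 := by
      rcases h2 with h2 | h2 <;> rw [h2] <;> simp
    have hul : u ∈ l0 := by
      rcases h2 with h2 | h2 <;> rw [h2] <;> simp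
    have : l0 = c := eq_of_mem_flatten hQ.1 hl0 hc hvl hv
    exact huc (this ▸ hul)
  obtain ⟨S, L, g1, g2, g3, g4, g5, g6, g7, g8, g9⟩ :=
    h1 V G K A B Q P hM hQ l hl (l.take (m - 1)) u v (l.drop (m + 1)) hdec hE
  refine ⟨S, L, g1, g2, g3, ?_, ?_, g9⟩
  · intro j y hj
    constructor
    · intro hjm
      rcases Nat.lt_or_ge j (m - 1) with h2 | h2
      · apply g4
        refine List.mem_of_getElem? (i := j) ?_
        rw [List.getElem?_take_of_lt h2]
        exact hj
      · have h3 : j = m - 1 := by omega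
        rw [h3, List.getElem?_eq_getElem hml1] at hj
        rw [← Option.some.inj hj]
        exact g5
    · intro hjm
      rcases Nat.eq_or_lt_of_le hjm with h2 | h2
      · rw [← h2, List.getElem?_eq_getElem hml, hv'] at hj
        rw [← Option.some.inj hj]
        exact g6
      · apply g7
        refine List.mem_of_getElem? (i := j - (m + 1)) ?_
        rw [List.getElem?_drop, show m + 1 + (j - (m + 1)) = j by omega]
        exact hj
  · intro l' hl' hne
    obtain ⟨a, x, b, f1, f2, f3, f4⟩ := g8 l' hl' hne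
    refine ⟨a.length, by rw [f1]; simp, ?_⟩
    intro j y hj
    rw [f1] at hj
    refine ⟨?_, ?_, ?_⟩
    · intro h2
      rw [List.getElem?_append_left h2] at hj
      exact f3 y (List.mem_of_getElem? hj)
    · intro h2
      rw [h2, List.getElem?_append_right (le_refl _)] at hj
      simp at hj
      rw [← hj]
      exact f2
    · intro h2
      rw [List.getElem?_append_right (by omega)] at hj
      have h3 : j - a.length = (j - a.length - 1) + 1 := by omega
      rw [h3, List.getElem?_cons_succ] at hj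
      exact f4 y (List.mem_of_getElem? hj)

/-- some row meets at least half of the columns -/
lemma webx_row {V : Type} [DecidableEq V] (QF PF : Finset (List V)) (r d n' : ℕ)
    (hr : PF.card = r) (hd : 1 ≤ d) (hr1 : 1 ≤ r) (hn : 2 * n' ≤ r) (hQ : 4 * d * r ≤ QF.card)
    (hm : ∀ c ∈ QF, (PF.filter (fun l => ¬ ∃ v ∈ c, v ∈ l)).card < n') :
    ∃ l ∈ PF, 2 * d * r ≤ (QF.filter (fun c => ∃ v ∈ c, v ∈ l)).card := by
  classical
  by_contra hcon
  push Not at hcon
  have h1 : ∑ l ∈ PF, (QF.filter (fun c => ∃ v ∈ c, v ∈ l)).card =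
      ∑ c ∈ QF, (PF.filter (fun l => ∃ v ∈ c, v ∈ l)).card := by
    simp only [Finset.card_filter]
    exact Finset.sum_comm
  have h2 : ∑ l ∈ PF, (QF.filter (fun c => ∃ v ∈ c, v ∈ l)).card ≤ PF.card * (2 * d * r) := by
    rw [← smul_eq_mul]
    exact Finset.sum_le_card_nsmul _ _ _ fun l hl => (hcon l hl).le
  have h3 : ∀ c ∈ QF, r + 2 ≤ 2 * (PF.filter (fun l => ∃ v ∈ c, v ∈ l)).card := by
    intro c hc
    have h4 := hm c hc
    have h5 := Finset.card_filter_add_card_filter_not (s := PF) (fun l : List V => ∃ v ∈ c, v ∈ l)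
    omega
  have h4 : QF.card * (r + 2) ≤ 2 * ∑ c ∈ QF, (PF.filter (fun l => ∃ v ∈ c, v ∈ l)).card := by
    rw [Finset.mul_sum, ← smul_eq_mul]
    exact Finset.card_nsmul_le_sum _ _ _ h3
  rw [h1] at h2
  rw [hr] at h2
  have h5 : 4 * d * r * (r + 2) ≤ QF.card * (r + 2) := Nat.mul_le_mul_right _ hQ
  have h6 : 1 ≤ d * r := Nat.mul_pos hd hr1
  nlinarith

/-- the segments of a row -/
lemma webx_pos {V : Type} (l : List V) (C : ℕ → List V) (q : ℕ → ℕ) (d : ℕ)
    (hC : ∀ i < d, ∃ (j : ℕ) (y : V), l[j]? = some y ∧ y ∈ C i)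
    (hb : ∀ i < d, ∀ (j : ℕ) (y : V), l[j]? = some y → y ∈ C i →
      (0 < i → q i < j) ∧ (i + 1 < d → j < q (i + 1))) :
    ∃ p : ℕ → ℕ, p 0 = 0 ∧ (∀ i < d, p i < p (i + 1)) ∧ (1 ≤ d → p d = l.length) ∧
      ∀ i < d, ∀ (j : ℕ) (y : V), l[j]? = some y → y ∈ C i → p i ≤ j ∧ j < p (i + 1) := by
  have key : ∀ i < d, ∀ (j : ℕ) (y : V), l[j]? = some y → y ∈ C i →
      (if i = 0 then 0 else if i < d then q i else l.length) ≤ j ∧
      j < (if i + 1 = 0 then 0 else if i + 1 < d then q (i + 1) else l.length) := by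
    intro i hi j y hj hy
    have h1 := hb i hi j y hj hy
    have h2 : j < l.length := by
      by_contra hh
      rw [List.getElem?_eq_none (by omega)] at hj
      exact absurd hj (by simp)
    constructor
    · by_cases hi0 : i = 0
      · simp [hi0]
      · rw [if_neg hi0, if_pos hi]
        exact (h1.1 (by omega)).le
    · rw [if_neg (by omega)]
      by_cases hi1 : i + 1 < d
      · rw [if_pos hi1]
        exact h1.2 hi1
      · rw [if_neg hi1]
        exact h2
  refine ⟨fun i => if i = 0 then 0 else if i < d then q i else l.length, by simp, ?_, ?_, key⟩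
  · intro i hi
    obtain ⟨j, y, hj, hy⟩ := hC i hi
    have := key i hi j y hj hy
    exact lt_of_le_of_lt this.1 this.2
  · intro hd
    have h1 : ¬ d = 0 := by omega
    simp [h1]

lemma webx_mono {p : ℕ → ℕ} {d : ℕ} (hp : ∀ i < d, p i < p (i + 1)) {i j : ℕ} (hij : i ≤ j)
    (hj : j ≤ d) : p i ≤ p j := by
  induction j with
  | zero =>
    have : i = 0 := by omega
    rw [this]
  | succ j ih =>
    rcases Nat.eq_or_lt_of_le hij with h | h
    · rw [h]
    · exact (ih (by omega) (by omega)).trans (hp j (by omega)).le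

lemma webx_idx_eq {V : Type} {l : List V} (hn : l.Nodup) {i j : ℕ} {y : V} (h1 : l[i]? = some y)
    (h2 : l[j]? = some y) : i = j := by
  have h3 : i < l.length := by
    by_contra hh
    rw [List.getElem?_eq_none (by omega)] at h1
    exact absurd h1 (by simp)
  have h4 : j < l.length := by
    by_contra hh
    rw [List.getElem?_eq_none (by omega)] at h2
    exact absurd h2 (by simp)
  rw [List.getElem?_eq_getElem h3] at h1
  rw [List.getElem?_eq_getElem h4] at h2
  have h5 : l[i] = l[j] := (Option.some.inj h1).trans (Option.some.inj h2).symm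
  exact (List.Nodup.getElem_inj_iff hn).1 h5

theorem st_WEBX (h1 : ST_CUT) : ST_WEBX := by
  intro V _ _ G K A B Q Q' P h d n' hM hQ hsub hd hn hh hQ' hdis
  classical
  have hSys := hM.1
  have hPn : P.Nodup := hSys.nodup
  have hPfl : P.flatten.Nodup := hSys.1
  have hQn : Q.Nodup := nodup_of_flatten hQ.1 (fun c hc => (hQ.2 c hc).1)
  have hQ'n : Q'.Nodup := hsub.nodup hQn
  have hmemQ : ∀ c ∈ Q', c ∈ Q := fun c hc => hsub.subset hc
  set r := P.length with hr
  have hr1 : 1 ≤ r := by omega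
  have hPc : P.toFinset.card = r := List.toFinset_card_of_nodup hPn
  have hQc : Q'.toFinset.card = Q'.length := List.toFinset_card_of_nodup hQ'n
  have hfew : ∀ c ∈ Q'.toFinset, (P.toFinset.filter (fun l => ¬ ∃ v ∈ c, v ∈ l)).card < n' := by
    intro c hc
    have h2 := hdis c (List.mem_toFinset.1 hc)
    have h3 : {l | l ∈ P ∧ List.Disjoint c l} =
        ((P.toFinset.filter (fun l => ¬ ∃ v ∈ c, v ∈ l) : Finset (List V)) : Set (List V)) := by
      ext l
      simp only [Set.mem_ofPred_eq, Finset.coe_filter, List.mem_toFinset]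
      constructor
      · rintro ⟨h4, h5⟩
        refine ⟨h4, ?_⟩
        rintro ⟨v, h6, h7⟩
        exact h5 h6 h7
      · rintro ⟨h4, h5⟩
        exact ⟨h4, fun v h6 h7 => h5 ⟨v, h6, h7⟩⟩
    rw [h3, Set.ncard_coe_finset] at h2
    exact h2
  obtain ⟨l0, hl0, hcard⟩ := webx_row Q'.toFinset P.toFinset r d n' hPc hd hr1 hn
    (by rw [hQc]; exact hQ') hfew
  rw [List.mem_toFinset] at hl0
  set CF := Q'.toFinset.filter (fun c => ∃ v ∈ c, v ∈ l0) with hCF
  have hCFQ' : ∀ c ∈ CF, c ∈ Q' := fun c hc => List.mem_toFinset.1 (mem_filter.1 hc).1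
  have hdr : 1 ≤ d * r := Nat.mul_pos hd hr1
  have hCFne : CF.Nonempty := by
    rw [← Finset.card_pos]
    have : 2 * d * r = 2 * (d * r) := by ring
    omega
  -- first positions
  have hpos : ∀ c ∈ CF, ∃ m : ℕ, (∃ v : V, l0[m]? = some v ∧ v ∈ c) ∧
      ∀ j < m, ∀ y : V, l0[j]? = some y → y ∉ c := by
    intro c hc
    obtain ⟨v, hv1, hv2⟩ := (mem_filter.1 hc).2
    obtain ⟨m, hm⟩ := List.getElem?_of_mem hv2
    have hex : ∃ m : ℕ, ∃ v : V, l0[m]? = some v ∧ v ∈ c := ⟨m, v, hm, hv1⟩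
    refine ⟨Nat.find hex, Nat.find_spec hex, ?_⟩
    intro j hj y hy hyc
    exact Nat.find_min hex hj ⟨y, hy, hyc⟩
  choose! pos hpos1 hpos2 using hpos
  have hinj : Set.InjOn pos CF := by
    intro c hc c' hc' he
    obtain ⟨v, hv, hvc⟩ := hpos1 c hc
    obtain ⟨v', hv', hvc'⟩ := hpos1 c' hc'
    rw [← he, hv] at hv'
    have : v = v' := Option.some.inj hv'
    subst this
    exact eq_of_mem_flatten hQ.1 (hmemQ c (hCFQ' c hc)) (hmemQ c' (hCFQ' c' hc')) hvc hvc'
  obtain ⟨col, hcol1, hcol2⟩ := webx_order CF pos hinj (2 * d * r) hcard hCFne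
  have hgrp : ∀ i < d, 2 * r * (i + 1) ≤ 2 * d * r := by
    intro i hi
    have : r * (i + 1) ≤ r * d := Nat.mul_le_mul_left _ hi
    nlinarith
  have hgrp1 : ∀ i < d, 2 * r * i < 2 * d * r := by
    intro i hi
    have h2 := hgrp i hi
    have h3 : 2 * r * (i + 1) = 2 * r * i + 2 * r := by ring
    omega
  -- the cuts
  have hcut : ∀ i, ∃ S L : Finset V, S.card + 1 ≤ r ∧ (0 < i → i < d →
      Disjoint S L ∧
      (∀ (j : ℕ) (y : V), l0[j]? = some y → (j < pos (col (2 * r * i)) → y ∈ L) ∧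
        (pos (col (2 * r * i)) ≤ j → y ∉ L)) ∧
      (∀ l' ∈ P, l' ≠ l0 → ∃ q, q < l'.length ∧ ∀ (j : ℕ) (y : V), l'[j]? = some y →
        (j < q → y ∈ L) ∧ (j = q → y ∈ S) ∧ (q < j → y ∉ L ∧ y ∉ S)) ∧
      ∀ c ∈ Q, (∀ x ∈ c, x ∉ S) → (∀ x ∈ c, x ∈ L) ∨ ∀ x ∈ c, x ∉ L) := by
    intro i
    by_cases hi : 0 < i ∧ i < d
    · have h2 := hgrp1 i hi.2
      have h3 := hcol1 _ h2
      obtain ⟨v, hv, hvc⟩ := hpos1 _ h3
      have h4 : 0 < 2 * r * i := Nat.mul_pos (by omega) hi.1
      have h5 := hcol2 0 (2 * r * i) h4 h2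
      obtain ⟨S, L, g1, g2, _, g4, g5, g6⟩ := webx_cut h1 hM hQ hl0
        (hmemQ _ (hCFQ' _ h3)) hv hvc (hpos2 _ h3) (by omega)
      exact ⟨S, L, g1.le, fun _ _ => ⟨g2, g4, g5, g6⟩⟩
    · refine ⟨∅, ∅, by simpa using hr1, fun h2 h3 => absurd ⟨h2, h3⟩ hi⟩
  choose S L hS hSL using hcut
  -- the columns
  have hcoldj : ∀ i < 2 * d * r, ∀ j < 2 * d * r, ∀ v, v ∈ col i → v ∈ col j → i = j := by
    intro i hi j hj v hvi hvj
    have h2 : col i = col j := eq_of_mem_flatten hQ.1 (hmemQ _ (hCFQ' _ (hcol1 i hi)))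
      (hmemQ _ (hCFQ' _ (hcol1 j hj))) hvi hvj
    by_contra hne
    rcases Nat.lt_or_gt_of_ne hne with h3 | h3
    · have := hcol2 i j h3 hj
      rw [h2] at this
      exact lt_irrefl _ this
    · have := hcol2 j i h3 hi
      rw [h2] at this
      exact lt_irrefl _ this
  have hpick : ∀ i, i < d → ∃ j, 2 * r * i ≤ j ∧ j < 2 * r * (i + 1) ∧ (∀ v ∈ col j, v ∉ S i) ∧
      ∀ v ∈ col j, v ∉ S (i + 1) := by
    intro i hi
    by_contra hcon
    push Not at hcon
    have h2 := hgrp i hi
    let B1 := (Finset.Ico (2 * r * i) (2 * r * (i + 1))).filter (fun j => ∃ v ∈ col j, v ∈ S i)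
    let B2 := (Finset.Ico (2 * r * i) (2 * r * (i + 1))).filter (fun j => ∃ v ∈ col j, v ∈ S (i + 1))
    have h3 : Finset.Ico (2 * r * i) (2 * r * (i + 1)) ⊆ B1 ∪ B2 := by
      intro j hj
      have hj' := Finset.mem_Ico.1 hj
      by_cases h4 : ∀ v ∈ col j, v ∉ S i
      · have h5 := hcon j hj'.1 hj'.2 h4
        exact mem_union_right _ (mem_filter.2 ⟨hj, h5⟩)
      · push Not at h4
        exact mem_union_left _ (mem_filter.2 ⟨hj, h4⟩)
    have hlt : ∀ j ∈ Finset.Ico (2 * r * i) (2 * r * (i + 1)), j < 2 * d * r := by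
      intro j hj
      exact lt_of_lt_of_le (Finset.mem_Ico.1 hj).2 h2
    have hB1 : B1.card ≤ (S i).card := by
      refine webx_few col B1 (S i) ?_ (fun j hj => (mem_filter.1 hj).2)
      intro a ha b hb v hva hvb
      exact hcoldj a (hlt a (mem_filter.1 ha).1) b (hlt b (mem_filter.1 hb).1) v hva hvb
    have hB2 : B2.card ≤ (S (i + 1)).card := by
      refine webx_few col B2 (S (i + 1)) ?_ (fun j hj => (mem_filter.1 hj).2)
      intro a ha b hb v hva hvb
      exact hcoldj a (hlt a (mem_filter.1 ha).1) b (hlt b (mem_filter.1 hb).1) v hva hvb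
    have h4 := (card_le_card h3).trans (card_union_le _ _)
    rw [Nat.card_Ico] at h4
    have h5 := hS i
    have h6 := hS (i + 1)
    have h7 : 2 * r * (i + 1) - 2 * r * i = 2 * r := by
      rw [Nat.mul_succ]; omega
    omega
  choose! jj hj1 hj2 hj3 hj4 using hpick
  have hjlt : ∀ i < d, jj i < 2 * d * r := fun i hi => lt_of_lt_of_le (hj2 i hi) (hgrp i hi)
  have hCmem : ∀ i < d, col (jj i) ∈ CF := fun i hi => hcol1 _ (hjlt i hi)
  have hCQ : ∀ i < d, col (jj i) ∈ Q := fun i hi => hmemQ _ (hCFQ' _ (hCmem i hi))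
  have hjstrict : ∀ i j, i < j → j < d → jj i < jj j := by
    intro i j hij hj
    have h2 := hj2 i (by omega)
    have h3 := hj1 j hj
    have h4 : 2 * r * (i + 1) ≤ 2 * r * j := Nat.mul_le_mul_left _ hij
    omega
  have hCdj : ∀ i < d, ∀ j < d, i ≠ j → ∀ v, v ∈ col (jj i) → v ∉ col (jj j) := by
    intro i hi j hj hne v hvi hvj
    have h2 := hcoldj _ (hjlt i hi) _ (hjlt j hj) v hvi hvj
    rcases Nat.lt_or_gt_of_ne hne with h3 | h3
    · have := hjstrict i j h3 hj
      omega
    · have := hjstrict j i h3 hi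
      omega
  have hnotL : ∀ i, 0 < i → i < d → ∀ x ∈ col (jj i), x ∉ L i := by
    intro i hi0 hi
    obtain ⟨_, g2, _, g4⟩ := hSL i hi0 hi
    obtain ⟨v, hv, hvc⟩ := hpos1 _ (hCmem i hi)
    have h3 : pos (col (2 * r * i)) ≤ pos (col (jj i)) := by
      rcases Nat.eq_or_lt_of_le (hj1 i hi) with h4 | h4
      · rw [h4]
      · exact (hcol2 _ _ h4 (hjlt i hi)).le
    rcases g4 _ (hCQ i hi) (hj3 i hi) with h5 | h5
    · exact absurd (h5 v hvc) ((g2 _ _ hv).2 h3)
    · exact h5
  have hinL : ∀ i, i + 1 < d → ∀ x ∈ col (jj i), x ∈ L (i + 1) := by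
    intro i hi
    obtain ⟨_, g2, _, g4⟩ := hSL (i + 1) (by omega) hi
    obtain ⟨v, hv, hvc⟩ := hpos1 _ (hCmem i (by omega))
    have h3 : pos (col (jj i)) < pos (col (2 * r * (i + 1))) :=
      hcol2 _ _ (hj2 i (by omega)) (hgrp1 (i + 1) hi)
    rcases g4 _ (hCQ i (by omega)) (hj4 i (by omega)) with h5 | h5
    · exact h5
    · exact absurd ((g2 _ _ hv).1 h3) (h5 v hvc)
  -- the rows
  let RF := (P.toFinset.erase l0).filter (fun l => ∀ i < d, ∃ v ∈ col (jj i), v ∈ l)
  have hRF : h ≤ RF.card := by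
    have h2 : P.toFinset.erase l0 ⊆ RF ∪ (range d).biUnion
        (fun i => P.toFinset.filter (fun l => ¬ ∃ v ∈ col (jj i), v ∈ l)) := by
      intro l hl
      by_cases h3 : ∀ i < d, ∃ v ∈ col (jj i), v ∈ l
      · exact mem_union_left _ (mem_filter.2 ⟨hl, h3⟩)
      · push Not at h3
        obtain ⟨i, hi, h4⟩ := h3
        refine mem_union_right _ (mem_biUnion.2 ⟨i, mem_range.2 hi,
          mem_filter.2 ⟨(mem_erase.1 hl).2, ?_⟩⟩)
        rintro ⟨v, hv1, hv2⟩
        exact h4 v hv1 hv2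
    have h3 : ((range d).biUnion
        (fun i => P.toFinset.filter (fun l => ¬ ∃ v ∈ col (jj i), v ∈ l))).card ≤ d * n' := by
      refine (Finset.card_biUnion_le_card_mul _ _ n' ?_).trans (by rw [card_range])
      intro i hi
      exact (hfew _ (List.mem_toFinset.2 (hCFQ' _ (hCmem i (mem_range.1 hi))))).le
    have h4 := (card_le_card h2).trans (card_union_le _ _)
    rw [card_erase_of_mem (List.mem_toFinset.2 hl0), hPc] at h4
    omega
  obtain ⟨rowf, hrow1, hrow2⟩ := webx_enum RF h hRF l0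
  have hrP : ∀ a < h, rowf a ∈ P := fun a ha =>
    List.mem_toFinset.1 (mem_erase.1 (mem_filter.1 (hrow1 a ha)).1).2
  have hrne : ∀ a < h, rowf a ≠ l0 := fun a ha => (mem_erase.1 (mem_filter.1 (hrow1 a ha)).1).1
  have hrC : ∀ a < h, ∀ i < d, ∃ v ∈ col (jj i), v ∈ rowf a := fun a ha =>
    (mem_filter.1 (hrow1 a ha)).2
  have hq : ∀ a i : ℕ, ∃ q : ℕ, a < h → 0 < i → i < d → ∀ (j : ℕ) (y : V), (rowf a)[j]? = some y →
      (j < q → y ∈ L i) ∧ (j = q → y ∈ S i) ∧ (q < j → y ∉ L i ∧ y ∉ S i) := by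
    intro a i
    by_cases h2 : a < h ∧ 0 < i ∧ i < d
    · obtain ⟨q, _, hq⟩ := (hSL i h2.2.1 h2.2.2).2.2.1 (rowf a) (hrP a h2.1) (hrne a h2.1)
      exact ⟨q, fun _ _ _ => hq⟩
    · exact ⟨0, fun h3 h4 h5 => absurd ⟨h3, h4, h5⟩ h2⟩
  choose q hq using hq
  have hp : ∀ a, ∃ p : ℕ → ℕ, a < h → (p 0 = 0 ∧ (∀ i < d, p i < p (i + 1)) ∧
      p d = (rowf a).length ∧
      ∀ i < d, ∀ (j : ℕ) (y : V), (rowf a)[j]? = some y → y ∈ col (jj i) →
        p i ≤ j ∧ j < p (i + 1)) := by
    intro a
    by_cases ha : a < h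
    · obtain ⟨p, p1, p2, p3, p4⟩ := webx_pos (rowf a) (fun i => col (jj i)) (q a) d
        (fun i hi => by
          obtain ⟨v, hv1, hv2⟩ := hrC a ha i hi
          obtain ⟨m, hm⟩ := List.getElem?_of_mem hv2
          exact ⟨m, v, hm, hv1⟩)
        (fun i hi j y hj hy => by
          constructor
          · intro hi0
            have h3 := hq a i ha hi0 hi j y hj
            by_contra hle
            rcases Nat.eq_or_lt_of_le (not_lt.1 hle) with h4 | h4
            · exact hj3 i hi y hy (h3.2.1 h4)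
            · exact hnotL i hi0 hi y hy (h3.1 h4)
          · intro hi1
            have h3 := hq a (i + 1) ha (by omega) hi1 j y hj
            by_contra hle
            rcases Nat.eq_or_lt_of_le (not_lt.1 hle) with h4 | h4
            · exact hj4 i hi y hy (h3.2.1 h4.symm)
            · exact (h3.2.2 h4).1 (hinL i hi1 y hy))
      exact ⟨p, fun _ => ⟨p1, p2, p3 hd, p4⟩⟩
    · exact ⟨fun _ => 0, fun h2 => absurd h2 ha⟩
  choose p hp using hp
  let R : ℕ → ℕ → List V := fun a i => ((rowf a).drop (p a i)).take (p a (i + 1) - p a i)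
  have hrow : ∀ a < h, row R d a = rowf a := by
    intro a ha
    obtain ⟨p1, p2, p3, -⟩ := hp a ha
    have h2 := webx_flat (rowf a) (p a) p1 d (fun i hi => (p2 i hi).le)
    rw [p3, List.take_length] at h2
    exact h2
  have hRdj : ∀ a < h, ∀ i < d, ∀ j < d, i ≠ j → ∀ v, v ∈ R a i → v ∉ R a j := by
    intro a ha i hi j hj hne v hvi hvj
    obtain ⟨m, hm, m1, m2⟩ := webx_idx hvi
    obtain ⟨m', hm', m1', m2'⟩ := webx_idx hvj
    have h2 := webx_idx_eq (nodup_of_mem_flatten hPfl (hrP a ha)) hm hm'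
    obtain ⟨_, p2, _, _⟩ := hp a ha
    rcases Nat.lt_or_gt_of_ne hne with h3 | h3
    · have := webx_mono p2 (show i + 1 ≤ j from h3) hj.le
      omega
    · have := webx_mono p2 (show j + 1 ≤ i from h3) hi.le
      omega
  have hRsub : ∀ a i v, v ∈ R a i → v ∈ rowf a := by
    intro a i v hv
    obtain ⟨m, hm, _⟩ := webx_idx hv
    exact List.mem_of_getElem? hm
  have hCR : ∀ a < h, ∀ i < d, ∀ v, v ∈ col (jj i) → v ∈ rowf a → v ∈ R a i := by
    intro a ha i hi v hv1 hv2
    obtain ⟨m, hm⟩ := List.getElem?_of_mem hv2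
    obtain ⟨_, _, _, p4⟩ := hp a ha
    have := p4 i hi m v hm hv1
    exact webx_mem hm this.1 this.2
  have hRne : ∀ a < h, ∀ i < d, R a i ≠ [] := by
    intro a ha i hi h2
    obtain ⟨v, hv1, hv2⟩ := hrC a ha i hi
    have := hCR a ha i hi v hv1 hv2
    rw [h2] at this
    exact absurd this (by simp)
  have hchain : ∀ a < h, (rowf a).IsChain G.Adj := by
    intro a ha
    obtain ⟨_, x, _, y, _, h2, _⟩ := hSys.2 _ (hrP a ha)
    exact h2.2.2.2
  have hRdj2 : ∀ a < h, ∀ b < h, a ≠ b → ∀ v, v ∈ rowf a → v ∉ rowf b := by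
    intro a ha b hb hne v hva hvb
    exact hne (hrow2 a ha b hb (eq_of_mem_flatten hPfl (hrP a ha) (hrP b hb) hva hvb))
  let U : ℕ → Finset V := fun i => (col (jj i)).toFinset ∪
    (range h).biUnion (fun a => (R a i).toFinset)
  refine ⟨R, U, ⟨hRne, ?_, ?_, ?_, ?_, ?_, ?_⟩, fun a ha => by rw [hrow a ha]; exact hrP a ha⟩
  · intro a ha
    rw [hrow a ha]
    exact nodup_of_mem_flatten hPfl (hrP a ha)
  · intro a ha
    rw [hrow a ha]
    exact hchain a ha
  · intro a ha b hb hne
    rw [hrow a ha, hrow b hb]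
    intro v hva hvb
    exact hRdj2 a ha b hb hne v hva hvb
  · intro a ha i hi v hv
    exact mem_union_right _ (mem_biUnion.2 ⟨a, mem_range.2 ha, List.mem_toFinset.2 hv⟩)
  · intro i hi
    have hCconn : Conn G (col (jj i)).toFinset :=
      conn_of_chain (hQ.2 _ (hCQ i hi)).1 (hQ.2 _ (hCQ i hi)).2.1
    have h2 : ∀ s : Finset ℕ, s ⊆ range h →
        Conn G ((col (jj i)).toFinset ∪ s.biUnion (fun a => (R a i).toFinset)) := by
      intro s
      induction s using Finset.induction with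
      | empty => intro _; simpa using hCconn
      | insert a s ha ih =>
        intro hs
        have h3 := ih ((subset_insert _ _).trans hs)
        have hah : a < h := mem_range.1 (hs (mem_insert_self _ _))
        have h4 : Conn G (R a i).toFinset := by
          refine conn_of_chain (hRne a hah i hi) ?_
          exact ((hchain a hah).drop _).take _
        obtain ⟨v, hv1, hv2⟩ := hrC a hah i hi
        have h5 := hCR a hah i hi v hv1 hv2
        have h6 := h3.union_of_mem h4 (mem_union_left _ (List.mem_toFinset.2 hv1))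
          (List.mem_toFinset.2 h5)
        rw [biUnion_insert]
        rw [show (col (jj i)).toFinset ∪ ((R a i).toFinset ∪ s.biUnion fun a => (R a i).toFinset) =
          ((col (jj i)).toFinset ∪ s.biUnion fun a => (R a i).toFinset) ∪ (R a i).toFinset by
          rw [union_assoc, union_comm (R a i).toFinset]]
        exact h6
    exact h2 (range h) subset_rfl
  · intro i hi j hj hne
    rw [Finset.disjoint_left]
    intro v hvi hvj
    rcases mem_union.1 hvi with h2 | h2 <;> rcases mem_union.1 hvj with h3 | h3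
    · exact hCdj i hi j hj hne v (List.mem_toFinset.1 h2) (List.mem_toFinset.1 h3)
    · obtain ⟨a, ha, h4⟩ := mem_biUnion.1 h3
      rw [mem_range] at ha
      rw [List.mem_toFinset] at h2 h4
      have h5 := hCR a ha i hi v h2 (hRsub a j v h4)
      exact hRdj a ha i hi j hj hne v h5 h4
    · obtain ⟨a, ha, h4⟩ := mem_biUnion.1 h2
      rw [mem_range] at ha
      rw [List.mem_toFinset] at h3 h4
      have h5 := hCR a ha j hj v h3 (hRsub a i v h4)
      exact hRdj a ha i hi j hj hne v h4 h5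
    · obtain ⟨a, ha, h4⟩ := mem_biUnion.1 h2
      obtain ⟨b, hb, h5⟩ := mem_biUnion.1 h3
      rw [mem_range] at ha hb
      rw [List.mem_toFinset] at h4 h5
      by_cases hab : a = b
      · subst hab
        exact hRdj a ha i hi j hj hne v h4 h5
      · exact hRdj2 a ha b hb hab v (hRsub a i v h4) (hRsub b j v h5)

end Pool.Agent.Helper71.BM
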